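import Pool.Agent.W809.CI.Stm

set_option autoImplicit false

open Set Filter Topology

namespace Pool.Agent.W959.CI

open Pool.Agent.W809.CI

lemma glue (a K : ℝ) (g1 g2 : ℝ → ℂ × ℂ) (h12 : g1 a = g2 a)
    (h1 : ∀ t t', ‖g1 t - g1 t'‖ ≤ K * |t - t'|) (h2 : ∀ t t', ‖g2 t - g2 t'‖ ≤ K * |t - t'|) :
    ∀ t t', ‖(if t ≤ a then g1 t else g2 t) - (if t' ≤ a then g1 t' else g2 t')‖
      ≤ K * |t - t'| := by
  intro t t'
  by_cases ht : t ≤ a
  · by_cases ht' : t' ≤ a
    · rw [if_pos ht, if_pos ht']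
      exact h1 t t'
    · rw [if_pos ht, if_neg ht']
      have h3 : g1 t - g2 t' = (g1 t - g1 a) + (g2 a - g2 t') := by rw [h12]; abel
      rw [h3]
      refine (norm_add_le _ _).trans ?_
      have e1 := h1 t a
      have e2 := h2 a t'
      push Not at ht'
      rw [abs_of_nonpos (by linarith)] at e1 e2
      rw [abs_of_nonpos (by linarith)]
      nlinarith
  · by_cases ht' : t' ≤ a
    · rw [if_neg ht, if_pos ht']
      have h3 : g2 t - g1 t' = (g2 t - g2 a) + (g1 a - g1 t') := by rw [h12]; abel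
      rw [h3]
      refine (norm_add_le _ _).trans ?_
      have e1 := h2 t a
      have e2 := h1 a t'
      push Not at ht
      rw [abs_of_nonneg (by linarith)] at e1 e2
      rw [abs_of_nonneg (by linarith)]
      nlinarith
    · rw [if_neg ht, if_neg ht']
      exact h2 t t'

lemma norm_sgn (m : ℤ) (v : ℂ × ℂ) : ‖((-1 : ℝ) ^ m) • v‖ = ‖v‖ := by
  rw [norm_smul, norm_zpow, norm_neg, norm_one, one_zpow, one_mul]

/-- periodic chain -/
lemma chain (p : ℝ) (hp : 0 < p) (K : ℝ) (h : ℝ → ℂ × ℂ)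
    (hl : ∀ (m : ℤ) (t t' : ℝ), p * m ≤ t → t ≤ t' → t' ≤ p * (m + 1) →
      ‖h t - h t'‖ ≤ K * |t - t'|) :
    ∀ t t', ‖h t - h t'‖ ≤ K * |t - t'| := by
  have key : ∀ n : ℕ, ∀ t t' : ℝ, t ≤ t' → ⌊t' / p⌋ = ⌊t / p⌋ + n →
      ‖h t - h t'‖ ≤ K * |t - t'| := by
    intro n
    induction n with
    | zero =>
      intro t t' htt hf
      have a1 : (⌊t / p⌋ : ℝ) ≤ t / p := Int.floor_le _
      have a2 : t' / p < (⌊t' / p⌋ : ℝ) + 1 := Int.lt_floor_add_one _
      rw [le_div_iff₀ hp] at a1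
      rw [div_lt_iff₀ hp] at a2
      have a3 : (⌊t' / p⌋ : ℝ) = (⌊t / p⌋ : ℝ) := by
        have : ⌊t' / p⌋ = ⌊t / p⌋ := by simpa using hf
        exact_mod_cast this
      rw [a3] at a2
      exact hl ⌊t / p⌋ t t' (by linarith) htt (by linarith)
    | succ n ih =>
      intro t t' htt hf
      set m : ℤ := ⌊t / p⌋ with hm
      have a1 : (m : ℝ) ≤ t / p := Int.floor_le _
      have a2 : t / p < (m : ℝ) + 1 := Int.lt_floor_add_one _
      have a3 : (⌊t' / p⌋ : ℝ) ≤ t' / p := Int.floor_le _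
      rw [le_div_iff₀ hp] at a1 a3
      rw [div_lt_iff₀ hp] at a2
      have a4 : ((m : ℝ) + 1) ≤ (⌊t' / p⌋ : ℝ) := by
        rw [hf]
        push_cast
        have : (0 : ℝ) ≤ (n : ℝ) := Nat.cast_nonneg _
        linarith
      set s : ℝ := p * (m + 1) with hs
      have hsp : s / p = ((m + 1 : ℤ) : ℝ) := by
        rw [hs]
        push_cast
        field_simp
      have hts : t ≤ s := by rw [hs]; linarith
      have hst : s ≤ t' := by
        rw [hs]
        have : p * ((m : ℝ) + 1) ≤ (⌊t' / p⌋ : ℝ) * p := by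
          rw [mul_comm]
          exact mul_le_mul_of_nonneg_right a4 hp.le
        linarith
      have e1 := hl m t s (by linarith) hts le_rfl
      have e2 := ih s t' hst (by
        rw [hsp, Int.floor_intCast, hf]
        push_cast
        ring)
      have h3 : h t - h t' = (h t - h s) + (h s - h t') := by abel
      rw [h3]
      refine (norm_add_le _ _).trans ?_
      rw [abs_of_nonpos (by linarith)] at e1 e2
      rw [abs_of_nonpos (by linarith)]
      nlinarith
  intro t t'
  rcases le_total t t' with htt | htt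
  · have h1 : ⌊t / p⌋ ≤ ⌊t' / p⌋ := Int.floor_le_floor (by gcongr)
    obtain ⟨n, hn⟩ := Int.eq_ofNat_of_zero_le (sub_nonneg.2 h1)
    exact key n t t' htt (by linarith)
  · have h1 : ⌊t' / p⌋ ≤ ⌊t / p⌋ := Int.floor_le_floor (by gcongr)
    obtain ⟨n, hn⟩ := Int.eq_ofNat_of_zero_le (sub_nonneg.2 h1)
    have := key n t' t htt (by linarith)
    rw [norm_sub_rev, abs_sub_comm] at this
    exact this

lemma muf_nonneg (lam : ℝ) : 0 ≤ muf lam := le_max_left _ _
lemma muf_le (lam : ℝ) : muf lam ≤ 1 := max_le zero_le_one (min_le_left _ _)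
lemma nuf_nonneg (lam : ℝ) : 0 ≤ nuf lam := le_max_left _ _
lemma nuf_le_muf (lam : ℝ) : nuf lam ≤ muf lam := by
  unfold nuf muf
  exact max_le_max le_rfl (min_le_min le_rfl (by linarith))
lemma Tf_nonneg (p : ℕ) (lam : ℝ) : 0 ≤ Tf p lam :=
  mul_nonneg (Nat.cast_nonneg _) (le_max_left _ _)
lemma Tf_le (p : ℕ) (lam : ℝ) : Tf p lam ≤ p := by
  unfold Tf
  have h : max 0 (min 1 (lam - 1)) ≤ 1 := max_le zero_le_one (min_le_left _ _)
  have h2 : (0 : ℝ) ≤ (p : ℝ) := Nat.cast_nonneg _
  nlinarith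

theorem hinv : S_PT → S_CC → S_HOP → S_HINV := by
  intro hPT hCC hHOP p W R L lam x hp hW h4 hR hL hI
  obtain ⟨hTw, hS, hr, hLip⟩ := hI
  obtain ⟨-, -, hbb, hb0, hrho0, hrho1, hrhob, hbeta, hsn, -, -⟩ := hPT
  obtain ⟨-, hCb, -, hCr⟩ := hCC
  obtain ⟨hH1, -, -, hH4⟩ := hHOP p W hp hW h4
  have hp0 : (0 : ℝ) < p := Nat.cast_pos.2 hp
  set μ := muf lam with hμ
  set ν := nuf lam with hν
  set T := Tf p lam with hT
  have hμ0 : 0 ≤ μ := muf_nonneg lam
  have hμ1 : μ ≤ 1 := muf_le lam
  have hν0 : 0 ≤ ν := nuf_nonneg lam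
  have hνμ : ν ≤ μ := nuf_le_muf lam
  have hT0 : 0 ≤ T := Tf_nonneg p lam
  have hT1 : T ≤ p := Tf_le p lam
  have hlog : ∀ r : ℝ, |r| ≤ R + 2 * p → Dp r ≤ Real.log (1 + R + 2 * p) := by
    intro r h
    unfold Dp
    exact Real.log_le_log (by linarith [abs_nonneg r]) (by linarith)
  set Z : ℝ → Pt := fun u => beta p (rho ν (beta (-p) (x u))) with hZ
  have hZs : ∀ u : ℝ, 0 ≤ u → u ≤ p → (Z u).s ≤ Real.log (1 + R + 2 * p) ∧
      |(Z u).r - p| ≤ R + p := by
    intro u hu0 hup
    have e1 := hr u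
    have e2 := (hbeta (p : ℤ) (rho ν (beta (-p) (x u))))
    have e3 := (hbeta (-(p : ℤ)) (x u))
    have e4 := hrhob ν (beta (-p) (x u))
    have e5 : |(beta (-p) (x u)).r| ≤ R + p := by
      rw [e3.2]
      push_cast
      rw [abs_le] at e1 ⊢
      constructor <;> linarith [e1.1, e1.2]
    constructor
    · rw [hZ]
      simp only
      rw [e2.1]
      refine e4.1.trans (max_le ?_ (hlog _ (e5.trans (by linarith))))
      rw [e3.1]
      exact hS u
    · rw [hZ]
      simp only
      rw [e2.2]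
      push_cast
      rw [add_sub_cancel_right]
      exact e4.2.trans e5
  have hZr : ∀ u : ℝ, 0 ≤ u → u ≤ p → |(Z u).r| ≤ R + 2 * p := by
    intro u hu0 hup
    have := (hZs u hu0 hup).2
    rw [abs_le] at this ⊢
    constructor <;> linarith [this.1, this.2]
  have hD : 0 < p - 2 * μ * W := by nlinarith
  have hD2 : 0 < p - 2 * W := by linarith
  -- the three pieces
  set f1 : ℝ → Pt := fun t => rho (max ν (t / W)) (x 0) with hf1
  set f2 : ℝ → Pt := fun t => rho (2 * μ - t / W) (Z T) with hf2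
  set f3 : ℝ → Pt := fun t => Z (T + (t - 2 * μ * W) * (p - T) / (p - 2 * μ * W)) with hf3
  have hfop : ∀ t, fop p W lam x t = if t ≤ μ * W then f1 t else
      if t ≤ 2 * μ * W then f2 t else f3 t := fun t => rfl
  have hx0r : |(x 0).r| ≤ R := by simpa using hr 0
  -- bounds
  have hb : ∀ t : ℝ, 0 ≤ t → t ≤ p → (fop p W lam x t).s ≤ Real.log (1 + R + 2 * p) ∧
      |(fop p W lam x t).r - t| ≤ R + 3 * p := by
    intro t ht0 htp
    rw [hfop]
    split_ifs with h1 h2
    · have e := hrhob (max ν (t / W)) (x 0)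
      constructor
      · exact e.1.trans (max_le (hS 0) (hlog _ (by linarith)))
      · have e2 := e.2.trans hx0r
        rw [abs_le] at e2 ⊢
        constructor <;> linarith [e2.1, e2.2]
    · have e := hrhob (2 * μ - t / W) (Z T)
      have e3 := hZr T hT0 hT1
      constructor
      · exact e.1.trans (max_le (hZs T hT0 hT1).1 (hlog _ e3))
      · have e2 := e.2.trans e3
        rw [abs_le] at e2 ⊢
        constructor <;> linarith [e2.1, e2.2]
    · push Not at h2
      have hu0 : 0 ≤ (t - 2 * μ * W) * (p - T) / (p - 2 * μ * W) :=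
        div_nonneg (mul_nonneg (by linarith) (by linarith)) hD.le
      have hu1 : (t - 2 * μ * W) * (p - T) / (p - 2 * μ * W) ≤ p - T := by
        rw [div_le_iff₀ hD, mul_comm]
        exact mul_le_mul_of_nonneg_left (by linarith) (by linarith)
      have e3 := hZs (T + (t - 2 * μ * W) * (p - T) / (p - 2 * μ * W)) (by linarith)
        (by linarith)
      refine ⟨e3.1, ?_⟩
      have e2 := e3.2
      change |(Z (T + (t - 2 * μ * W) * (p - T) / (p - 2 * μ * W))).r - t| ≤ R + 3 * p
      rw [abs_le] at e2 ⊢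
      constructor <;> linarith [e2.1, e2.2]
  set K : ℝ := max (4 * (2 * Real.log (1 + R + 2 * p) + 9) / W) (L * p / (p - 2 * W)) with hK
  set A : ℝ := Real.log (1 + R + 2 * p) with hA
  have hA0 : 0 ≤ A := Real.log_nonneg (by linarith)
  have hgen : ∀ (y : Pt) (θ θ' d : ℝ), y.s ≤ A → Dp y.r ≤ A → |θ - θ'| ≤ d / W →
      ‖Cc (rho θ y) - Cc (rho θ' y)‖ ≤ K * d := by
    intro y θ θ' d h1 h2 h3
    have h0 := hsn y
    have h0' := Dp_nonneg y.r
    have hd : 0 ≤ d / W := (abs_nonneg _).trans h3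
    have hd0 : 0 ≤ d := by
      have := mul_nonneg hd hW.le
      rwa [div_mul_cancel₀ _ hW.ne'] at this
    calc ‖Cc (rho θ y) - Cc (rho θ' y)‖ ≤ 4 * (y.s + Dp y.r + 9) * |θ - θ'| := hCr y θ θ'
      _ ≤ 4 * (2 * A + 9) * (d / W) := by
          refine mul_le_mul (by linarith) h3 (abs_nonneg _) (by linarith)
      _ = 4 * (2 * A + 9) / W * d := by ring
      _ ≤ K * d := mul_le_mul_of_nonneg_right (le_max_left _ _) hd0
  have hL1 : ∀ t t', ‖Cc (f1 t) - Cc (f1 t')‖ ≤ K * |t - t'| := by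
    intro t t'
    refine hgen (x 0) _ _ _ (hS 0) (hlog _ (by linarith)) ?_
    have h5 : |max ν (t / W) - max ν (t' / W)| ≤ |t / W - t' / W| := by
      have := abs_max_sub_max_le_max ν (t / W) ν (t' / W)
      simpa using this
    refine h5.trans (le_of_eq ?_)
    rw [← sub_div, abs_div, abs_of_pos hW]
  have hL2 : ∀ t t', ‖Cc (f2 t) - Cc (f2 t')‖ ≤ K * |t - t'| := by
    intro t t'
    refine hgen (Z T) _ _ _ (hZs T hT0 hT1).1 (hlog _ (hZr T hT0 hT1)) (le_of_eq ?_)
    have : 2 * μ - t / W - (2 * μ - t' / W) = -((t - t') / W) := by ring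
    rw [this, abs_neg, abs_div, abs_of_pos hW]
  have hL3 : ∀ t t', ‖Cc (f3 t) - Cc (f3 t')‖ ≤ K * |t - t'| := by
    intro t t'
    have hKnn : 0 ≤ K := le_max_of_le_right (by positivity)
    rcases le_or_gt lam 2 with hl | hl
    · have hν' : ν = 0 := by
        rw [hν]
        unfold nuf
        exact max_eq_left ((min_le_right _ _).trans (by linarith))
      have hZx : ∀ u, Z u = x u := by
        intro u
        rw [hZ]
        simp only
        rw [hν', hrho0 0 _ le_rfl, hbb, add_neg_cancel, hb0]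
      rw [hf3]
      simp only
      rw [hZx, hZx]
      refine (hLip _ _).trans ?_
      have e1 : (T + (t - 2 * μ * W) * (p - T) / (p - 2 * μ * W)) -
          (T + (t' - 2 * μ * W) * (p - T) / (p - 2 * μ * W)) =
          (p - T) / (p - 2 * μ * W) * (t - t') := by ring
      rw [e1, abs_mul, ← mul_assoc]
      refine mul_le_mul_of_nonneg_right ?_ (abs_nonneg _)
      rw [abs_of_nonneg (div_nonneg (by linarith) hD.le)]
      refine le_trans ?_ (le_max_right _ _)
      rw [mul_div_assoc]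
      refine mul_le_mul_of_nonneg_left ?_ hL
      refine div_le_div₀ hp0.le (by linarith) hD2 (by nlinarith)
    · have hTp : T = p := by
        rw [hT]
        unfold Tf
        rw [min_eq_left (by linarith), max_eq_right zero_le_one, mul_one]
      have : f3 t = f3 t' := by
        rw [hf3]
        simp only
        rw [hTp]
        simp
      rw [this, sub_self, norm_zero]
      exact mul_nonneg hKnn (abs_nonneg _)
  have hj1 : f1 (μ * W) = f2 (μ * W) := by
    rw [hf1, hf2]
    simp only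
    rw [mul_div_assoc, div_self hW.ne', mul_one, max_eq_right hνμ]
    rcases lt_or_ge lam 1 with hl | hl
    · have hT' : T = 0 := by
        rw [hT]
        unfold Tf
        rw [max_eq_left ((min_le_right _ _).trans (by linarith)), mul_zero]
      have hν' : ν = 0 := by
        rw [hν]
        unfold nuf
        exact max_eq_left ((min_le_right _ _).trans (by linarith))
      have hZx : Z T = x 0 := by
        rw [hZ]
        simp only
        rw [hν', hrho0 0 _ le_rfl, hbb, add_neg_cancel, hb0, hT']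
      rw [hZx]
      congr 1
      ring
    · have hμ' : μ = 1 := by
        rw [hμ]
        unfold muf
        rw [min_eq_left hl, max_eq_right zero_le_one]
      rw [hμ', hrho1 1 _ le_rfl, hrho1 _ _ (by norm_num)]
  have hj2 : f2 (2 * μ * W) = f3 (2 * μ * W) := by
    rw [hf2, hf3]
    simp only
    rw [mul_div_assoc, div_self hW.ne', mul_one, sub_self, hrho0 0 _ le_rfl, sub_self, zero_mul,
      zero_div, add_zero]
  have hmu2 : μ * W ≤ 2 * μ * W := by nlinarith [mul_nonneg hμ0 hW.le]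
  have hG : ∀ t t', ‖Cc (fop p W lam x t) - Cc (fop p W lam x t')‖ ≤ K * |t - t'| := by
    have g1 := glue (2 * μ * W) K (fun t => Cc (f2 t)) (fun t => Cc (f3 t)) (by rw [hj2]) hL2 hL3
    have g2 := glue (μ * W) K (fun t => Cc (f1 t))
      (fun t => if t ≤ 2 * μ * W then Cc (f2 t) else Cc (f3 t)) (by
        rw [if_pos hmu2, hj1]) hL1 g1
    intro t t'
    have := g2 t t'
    rw [hfop, hfop]
    simp only [apply_ite Cc]
    exact this
  refine ⟨hH1 lam x, ?_, ?_, ?_⟩
  · intro t
    have e := hbeta (p * ⌊t / p⌋) (fop p W lam x (t - p * ⌊t / p⌋))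
    have a1 : (⌊t / p⌋ : ℝ) ≤ t / p := Int.floor_le _
    have a2 : t / p < (⌊t / p⌋ : ℝ) + 1 := Int.lt_floor_add_one _
    rw [le_div_iff₀ hp0] at a1
    rw [div_lt_iff₀ hp0] at a2
    have e2 := (hb (t - p * ⌊t / p⌋) (by linarith) (by linarith)).1
    unfold Hop
    rw [e.1]
    refine e2.trans (Real.log_le_log (by linarith) (by linarith))
  · intro t
    have e := hbeta (p * ⌊t / p⌋) (fop p W lam x (t - p * ⌊t / p⌋))
    have a1 : (⌊t / p⌋ : ℝ) ≤ t / p := Int.floor_le _
    have a2 : t / p < (⌊t / p⌋ : ℝ) + 1 := Int.lt_floor_add_one _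
    rw [le_div_iff₀ hp0] at a1
    rw [div_lt_iff₀ hp0] at a2
    have e2 := (hb (t - p * ⌊t / p⌋) (by linarith) (by linarith)).2
    unfold Hop
    rw [e.2]
    push_cast
    refine le_trans (le_of_eq ?_) e2
    congr 1
    ring
  · have hH : ∀ (m : ℤ) (t : ℝ), p * m ≤ t → t ≤ p * (m + 1) →
        Cc (Hop p W lam x t) = ((-1 : ℝ) ^ ((p : ℤ) * m)) • Cc (fop p W lam x (t - p * m)) := by
      intro m t h1 h2
      rcases lt_or_eq_of_le h2 with h3 | h3
      · have hfl : ⌊t / p⌋ = m := by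
          rw [Int.floor_eq_iff]
          constructor
          · rw [le_div_iff₀ hp0]; linarith
          · rw [div_lt_iff₀ hp0]; linarith
        unfold Hop
        rw [hfl, hCb]
      · have hfl : ⌊t / p⌋ = m + 1 := by
          rw [h3, mul_div_assoc, mul_comm, div_mul_cancel₀ _ hp0.ne']
          exact_mod_cast Int.floor_intCast (m + 1)
        unfold Hop
        rw [hfl, hCb]
        have e1 : t - p * ((m + 1 : ℤ) : ℝ) = 0 := by rw [h3]; push_cast; ring
        have e2 : t - p * (m : ℝ) = p := by rw [h3]; ring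
        rw [e1, e2, hH4 lam x hTw, hCb, smul_smul, ← zpow_add₀ (by norm_num : (-1 : ℝ) ≠ 0)]
        congr 2
        ring
    refine chain p hp0 K (fun t => Cc (Hop p W lam x t)) ?_
    intro m t t' h1 h2 h3
    rw [hH m t h1 (h2.trans h3), hH m t' (h1.trans h2) h3, ← smul_sub, norm_sgn]
    refine (hG _ _).trans (le_of_eq ?_)
    congr 2
    ring

end Pool.Agent.W959.CI
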